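import Pool.Agent.Run7.h640.FP.Iface

/-! Piece LOCT (helper930) of project FP (helper640). -/

set_option autoImplicit false

open Finset
open scoped Classical

namespace Run7.h640.FP

/-- the reversed order -/
def revOrd (b' : ℕ) (r : ℕ → ℕ → Prop) (i j : ℕ) : Prop :=
  (i < b' ∧ j < b' ∧ r (b' - 1 - j) (b' - 1 - i)) ∨ (b' ≤ j ∧ i < j)

theorem revOrd_band {D : ℕ} {r : ℕ → ℕ → Prop} (b' : ℕ) (h : Band D r) : Band D (revOrd b' r) where
  lt := by
    rintro i j (⟨hi, hj, hr⟩ | ⟨_, hij⟩)
    · have := h.lt _ _ hr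
      omega
    · exact hij
  trans := by
    rintro i j k (⟨hi, hj, hr⟩ | ⟨hj, hij⟩) (⟨hj2, hk, hr2⟩ | ⟨hk, hjk⟩)
    · exact Or.inl ⟨hi, hk, h.trans _ _ _ hr2 hr⟩
    · refine Or.inr ⟨hk, ?_⟩
      omega
    · omega
    · exact Or.inr ⟨hk, by omega⟩
  far := by
    intro i j hD hij
    rcases lt_or_ge j b' with hj | hj
    · refine Or.inl ⟨by omega, hj, h.far _ _ (by omega) (by omega)⟩
    · exact Or.inr ⟨hj, hij⟩

theorem prove_LOCT : S_LOCT := by
  intro hPOS hSTEP hDUAL hMAP hLOCB D r hD hB a b b' q x y hbb hax hay hxb hyb hxy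
  have hst : IsStrictOrder ℕ r := hB.strict
  have key : ∀ c, c ≤ b' → x < c → y < c →
      pr r x y (Ico a c) = pr (revOrd b' r) (b' - 1 - y) (b' - 1 - x) (Ico (b' - c) (b' - a)) := by
    intro c hc hxc hyc
    have him : (Ico a c).image (fun i => b' - 1 - i) = Ico (b' - c) (b' - a) := by
      ext i
      rw [mem_image, mem_Ico]
      constructor
      · rintro ⟨j, hj, rfl⟩
        rw [mem_Ico] at hj
        omega
      · rintro ⟨h1, h2⟩
        refine ⟨b' - 1 - i, ?_, by omega⟩
        rw [mem_Ico]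
        omega
    have hmap := hMAP ℕ ℕ (fun u v => r v u) (revOrd b' r) (fun i => b' - 1 - i) (Ico a c)
      (by
        intro u hu v hv huv
        have hu' := mem_Ico.1 (Finset.mem_coe.1 hu)
        have hv' := mem_Ico.1 (Finset.mem_coe.1 hv)
        simp only at huv
        omega)
      (by
        intro u hu v hv
        rw [mem_Ico] at hu hv
        unfold revOrd
        have e1 : b' - 1 - (b' - 1 - u) = u := by omega
        have e2 : b' - 1 - (b' - 1 - v) = v := by omega
        rw [e1, e2]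
        constructor
        · rintro (⟨_, _, h⟩ | ⟨h, _⟩)
          · exact h
          · omega
        · intro h
          exact Or.inl ⟨by omega, by omega, h⟩)
    have hdual := hDUAL ℕ r (Ico a c)
    have hx' : x ∈ Ico a c := mem_Ico.2 ⟨hax, hxc⟩
    have hy' : y ∈ Ico a c := mem_Ico.2 ⟨hay, hyc⟩
    have e1 : En (revOrd b' r) (Ico (b' - c) (b' - a)) = En r (Ico a c) := by
      rw [← hdual.1, ← hmap.1]
      congr 1
      convert him.symm
    have e2 : Fn (revOrd b' r) (b' - 1 - y) (b' - 1 - x) (Ico (b' - c) (b' - a)) =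
        Fn r x y (Ico a c) := by
      rw [← hdual.2 x hx' y hy' hxy, ← hmap.2 y hy' x hx']
      congr 1
      convert him.symm
    unfold pr
    rw [e1, e2]
  rw [key b' le_rfl (by omega) (by omega), key b hbb (by omega) (by omega), Nat.sub_self]
  exact hLOCB hPOS hSTEP D (revOrd b' r) hD (revOrd_band b' hB) 0 (b' - b) (b' - a) q _ _
    (Nat.zero_le _) (by omega) (by omega) (by omega) (by omega) (by omega)

end Run7.h640.FP
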